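import Pool.Agent.K6.H86.SD.LZ

/-!
# Euclid's lemma for `n ^ n + 1` and compressible numbers

If `n ^ n + 1` is prime and `n > 1` then `n = 2 ^ (2 ^ k)`, and `n ^ n + 1` is a Fermat number. A prime number which divides a
product divides one of the factors. We show that `n ^ n + 1`, for `n = 2 ^ (2 ^ k)`, and all Fermat numbers have this property
with respect to the integers with compressible expansions, no matter whether they are prime. A word is a concatenation of `z`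
Lempel-Ziv phrases if each phrase is a letter or a copy of a block which starts at an earlier position (and may overlap the
phrase). If `n > 3 K (2 K + 1) ^ (2 W + 6) ^ z` and `n ^ n + 1` divides a product of `K` integers whose expansions in base `n`
have at most `2 n W` letters (of absolute value at most `n`, of both signs) and at most `z` phrases, then it divides one of
these integers. In particular the base `n` digits of a divisor `d < n ^ n + 1` of `n ^ n + 1` with `n ^ n + 1 ≤ d ^ K` have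
more than `z` phrases if `n > 3 K (2 K + 1) ^ 8 ^ z`. Periodic digits, iterated copies and automatic words, and so numbers
which are far from being sparse, are allowed here.

Without the bound `2 n W` for the number of letters the statement is false if `n ^ n + 1` is composite: let
`n ^ n + 1 = d e`; the sum of `n ^ (2 n j)` over `j < d` is divisible by `d` and not by `n ^ n + 1` (as `n ^ (2 n) ≡ 1`), and its
expansion has `4` phrases.

Proof. For a word with `z` phrases with the periods `p_i` there are `T = (2 W + 6) ^ z` terms `v_j g ^ l_j` the sum of which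
is `D x`, where `D` is the product of the numbers `g ^ p_i - 1` for the small periods `p_i < 2 N` only, as the word contains at
most `W` periods of the others. The order of `g` modulo a prime divisor of `g ^ N + 1 = 2 ^ (2 ^ m) + 1` is `2 N`, so `D` is
prime to it and it suffices to bound the greatest common divisor of `D x` and `g ^ N + 1`. For a sparse number `σ` this is done
as follows: choose `q ≤ Q ^ (T - 1)` such that the numbers `q l_j` are near to multiples `α_j N` of `N` (after division by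
a power of `g`), and let `f(X) = ∑ v_j g ^ (w + l_j) X ^ α_j` (with exponents `l_j` modulo `N`, as `g ^ N ≡ -1`). The resultant
of `f` with the irreducible polynomial `X ^ q + g ^ (-N)` is an integer, it is small and divisible by the common divisor.
-/

set_option autoImplicit false

namespace Pool.Agent.Results.MP_a70bdc_nt.CompressibleEuclid

/-- The word `a 0, …, a (l - 1)` is a concatenation of `z` phrases, each of which is empty, a letter or a copy of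
a block starting at an earlier position (at the distance `p`). -/
def LZ (a : ℕ → ℤ) (l z : ℕ) : Prop :=
  ∃ c : ℕ → ℕ, c 0 = 0 ∧ c z = l ∧ ∀ i < z, c (i + 1) = c i + 1 ∨
    (c i ≤ c (i + 1) ∧ ∃ p, 0 < p ∧ p ≤ c i ∧ ∀ j, c i ≤ j → j < c (i + 1) → a j = a (j - p))

/-- `x` is the value in base `g` of a word with at most `L` letters, of absolute value at most `B`, and with
`z` phrases. The first letter is the highest or the lowest one. -/
def Compressible (g L : ℕ) (B : ℤ) (z : ℕ) (x : ℤ) : Prop :=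
  ∃ (a : ℕ → ℤ) (l : ℕ), l ≤ L ∧ LZ a l z ∧ (∀ j < l, |a j| ≤ B) ∧
    (x = ∑ j ∈ Finset.range l, (g : ℤ) ^ (l - 1 - j) * a j ∨
      x = ∑ j ∈ Finset.range l, (g : ℤ) ^ j * a j)

theorem toLib {g L : ℕ} {B : ℤ} {z : ℕ} {x : ℤ} (h : Compressible g L B z x) :
    Pool.Agent.K6.H86.SD.Compressible g L B z x := h

theorem gcd_fermat (m g N Q W z : ℕ) (B x : ℤ) (hQ : 1 ≤ Q) (hgN : g ^ N = 2 ^ 2 ^ m)
    (hx : Compressible g (2 * N * W) B z x) :
    (2 : ℤ) ^ 2 ^ m + 1 ∣ x ∨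
    (Int.gcd x ((2 : ℤ) ^ 2 ^ m + 1) : ℤ) ^ Q ≤
      (g * ((2 * W + 6) ^ z * B)) ^ (Q ^ (2 * W + 6) ^ z) * (2 ^ 2 ^ m) ^ 2 := by
  have hx2 := toLib hx
  rcases lt_or_ge B 0 with hB | hB
  · -- there is only the empty word
    left
    obtain ⟨a, l, hl, hLZ, ha, hval⟩ := hx
    have hl0 : l = 0 := by
      by_contra h0
      have h1 := ha 0 (by omega)
      have h2 := abs_nonneg (a 0)
      omega
    subst hl0
    have : x = 0 := by rcases hval with h | h <;> simpa using h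
    rw [this]
    exact dvd_zero _
  rw [mul_comm (2 * N) W] at hx2
  have h := Pool.Agent.K6.H86.SD.gcd_lz (Q := Q) hB hQ hgN hx2
  push_cast at h
  exact h

theorem euclid_fermat (m g N K W z : ℕ) (B : ℤ) (x : Fin K → ℤ) (hgN : g ^ N = 2 ^ 2 ^ m)
    (hx : ∀ i, Compressible g (2 * N * W) B z (x i)) (h : (2 : ℤ) ^ 2 ^ m + 1 ∣ ∏ i, x i) :
    (∃ i, (2 : ℤ) ^ 2 ^ m + 1 ∣ x i) ∨
    (2 : ℤ) ^ 2 ^ m ≤ (g * ((2 * W + 6) ^ z * B)) ^ (K * (2 * K + 1) ^ (2 * W + 6) ^ z) := by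
  by_contra hcon
  rw [not_or] at hcon
  have hA : (0 : ℤ) < (2 : ℤ) ^ 2 ^ m := by positivity
  obtain ⟨i, hi⟩ := Pool.Agent.K6.H86.SD.exists_large (by linarith) x h
  apply hcon.2
  have hle := (gcd_fermat m g N (2 * K + 1) W z B (x i) (by omega) hgN (hx i)).resolve_left
    (fun hh => hcon.1 ⟨i, hh⟩)
  exact Pool.Agent.K6.H86.SD.euclid_of (by positivity) hi hle

theorem two_le (k : ℕ) : 2 ≤ 2 ^ 2 ^ k :=
  calc 2 = 2 ^ 1 := rfl
    _ ≤ 2 ^ 2 ^ k := Nat.pow_le_pow_right (by norm_num) Nat.one_le_two_pow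

theorem pow_self (k : ℕ) : (2 ^ 2 ^ k) ^ (2 ^ 2 ^ k) = 2 ^ 2 ^ (k + 2 ^ k) := by
  rw [← pow_mul]
  congr 1
  exact (pow_add 2 k (2 ^ k)).symm

/-- the final estimate -/
theorem fin_aux {n K T : ℕ} (hK : 1 ≤ K) (hn : 2 ≤ n)
    (h : (n : ℤ) ^ n ≤ (n * ((T : ℤ) * n)) ^ (K * (2 * K + 1) ^ T)) :
    n ≤ 3 * K * (2 * K + 1) ^ T := by
  by_contra hcon
  rw [not_le] at hcon
  have hTn : T ≤ n := by
    have h1 : T < 2 ^ T := Nat.lt_two_pow_self
    have h2 : 2 ^ T ≤ (2 * K + 1) ^ T := Nat.pow_le_pow_left (by omega) T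
    have h3 : (2 * K + 1) ^ T ≤ 3 * K * (2 * K + 1) ^ T := Nat.le_mul_of_pos_left _ (by omega)
    omega
  have hTz : (T : ℤ) ≤ n := by exact_mod_cast hTn
  have hn0 : (0 : ℤ) ≤ n := by positivity
  have h1 : (n : ℤ) * ((T : ℤ) * n) ≤ (n : ℤ) ^ 3 := by
    calc (n : ℤ) * ((T : ℤ) * n) = T * (n : ℤ) ^ 2 := by ring
      _ ≤ n * (n : ℤ) ^ 2 := mul_le_mul_of_nonneg_right hTz (by positivity)
      _ = (n : ℤ) ^ 3 := by ring
  have h2 : (n : ℤ) ^ n ≤ (n : ℤ) ^ (3 * (K * (2 * K + 1) ^ T)) := by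
    refine h.trans ((pow_le_pow_left₀ (by positivity) h1 _).trans (le_of_eq ?_))
    rw [← pow_mul]
  have h3 : n ^ n ≤ n ^ (3 * (K * (2 * K + 1) ^ T)) := by exact_mod_cast h2
  have h4 := (Nat.pow_le_pow_iff_right (by omega : 1 < n)).1 h3
  have h5 : 3 * (K * (2 * K + 1) ^ T) = 3 * K * (2 * K + 1) ^ T := by ring
  omega

theorem euclid_n (k K W z : ℕ) (x : Fin K → ℤ)
    (hx : ∀ i, Compressible (2 ^ 2 ^ k) (2 * 2 ^ 2 ^ k * W) (2 ^ 2 ^ k) z (x i))
    (hn : 3 * K * (2 * K + 1) ^ (2 * W + 6) ^ z < 2 ^ 2 ^ k)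
    (h : (((2 ^ 2 ^ k) ^ (2 ^ 2 ^ k) + 1 : ℕ) : ℤ) ∣ ∏ i, x i) :
    ∃ i, (((2 ^ 2 ^ k) ^ (2 ^ 2 ^ k) + 1 : ℕ) : ℤ) ∣ x i := by
  by_contra hcon
  have hn2 := two_le k
  have hnn := pow_self k
  obtain ⟨n, hnd⟩ : ∃ n, n = 2 ^ 2 ^ k := ⟨_, rfl⟩
  have hx' : ∀ i, Compressible n (2 * n * W) n z (x i) := by
    intro i
    have := hx i
    rw [hnd]
    push_cast
    exact this
  rw [← hnd] at hn hn2 hnn h hcon
  have hcast : (((n ^ n + 1 : ℕ)) : ℤ) = (2 : ℤ) ^ 2 ^ (k + 2 ^ k) + 1 := by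
    rw [hnn]
    push_cast
    rfl
  rw [hcast] at h hcon
  have hK : 1 ≤ K := by
    by_contra hK0
    have : K = 0 := by omega
    subst this
    simp only [Finset.univ_eq_empty, Finset.prod_empty] at h
    have h1 := Int.le_of_dvd one_pos h
    have h2 : (0 : ℤ) < (2 : ℤ) ^ 2 ^ (k + 2 ^ k) := by positivity
    omega
  have h1 := (euclid_fermat (k + 2 ^ k) n n K W z n x hnn hx' h).resolve_left hcon
  have e1 : (2 : ℤ) ^ 2 ^ (k + 2 ^ k) = (n : ℤ) ^ n := by exact_mod_cast hnn.symm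
  rw [e1] at h1
  have h2 := fin_aux (T := (2 * W + 6) ^ z) hK hn2 (by push_cast; exact h1)
  omega

/-- the sum of the digits -/
theorem sum_digits (b n : ℕ) : ∀ N : ℕ,
    ∑ i ∈ Finset.range N, b ^ i * (n / b ^ i % b) = n % b ^ N := by
  intro N
  induction N with
  | zero => simp [Nat.mod_one]
  | succ N ih =>
    rw [Finset.sum_range_succ, ih, pow_succ, Nat.mod_mul]

theorem digits_compressible {g l L z d : ℕ} (hg : 0 < g) (hl : l ≤ L) (hd : d < g ^ l)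
    (h : LZ (fun j => ((d / g ^ j % g : ℕ) : ℤ)) l z ∨
      LZ (fun j => ((d / g ^ (l - 1 - j) % g : ℕ) : ℤ)) l z) :
    Compressible g L g z d := by
  have h1 := sum_digits g d l
  rw [Nat.mod_eq_of_lt hd] at h1
  have hdig : ∀ i, ((d / g ^ i % g : ℕ) : ℤ) ≤ g := fun i => by
    have : d / g ^ i % g < g := Nat.mod_lt _ hg
    exact_mod_cast this.le
  rcases h with h | h
  · refine ⟨_, l, hl, h, fun j _ => ?_, Or.inr ?_⟩
    · rw [abs_of_nonneg (by positivity)]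
      exact hdig j
    · have h2 : ((∑ i ∈ Finset.range l, g ^ i * (d / g ^ i % g) : ℕ) : ℤ) = d := by rw [h1]
      rw [← h2, Nat.cast_sum]
      refine Finset.sum_congr rfl fun i _ => ?_
      rw [Nat.cast_mul, Nat.cast_pow]
  · refine ⟨_, l, hl, h, fun j _ => ?_, Or.inl ?_⟩
    · rw [abs_of_nonneg (by positivity)]
      exact hdig _
    · have h2 : ((∑ i ∈ Finset.range l, g ^ i * (d / g ^ i % g) : ℕ) : ℤ) = d := by rw [h1]
      rw [← Finset.sum_range_reflect (fun i => g ^ i * (d / g ^ i % g)) l] at h2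
      rw [← h2, Nat.cast_sum]
      refine Finset.sum_congr rfl fun i _ => ?_
      rw [Nat.cast_mul, Nat.cast_pow]

/-- The digits of the large proper divisors of `n ^ n + 1` are not compressible. -/
theorem divisors_n (k K l z d : ℕ) (hdvd : d ∣ (2 ^ 2 ^ k) ^ (2 ^ 2 ^ k) + 1)
    (hne : d ≠ (2 ^ 2 ^ k) ^ (2 ^ 2 ^ k) + 1) (hlarge : (2 ^ 2 ^ k) ^ (2 ^ 2 ^ k) + 1 ≤ d ^ K)
    (hd : d < (2 ^ 2 ^ k) ^ l) (hl : l ≤ 2 * 2 ^ 2 ^ k)
    (h : LZ (fun j => ((d / (2 ^ 2 ^ k) ^ j % 2 ^ 2 ^ k : ℕ) : ℤ)) l z ∨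
      LZ (fun j => ((d / (2 ^ 2 ^ k) ^ (l - 1 - j) % 2 ^ 2 ^ k : ℕ) : ℤ)) l z) :
    2 ^ 2 ^ k ≤ 3 * K * (2 * K + 1) ^ 8 ^ z := by
  have hn2 := two_le k
  have hnn := pow_self k
  obtain ⟨n, hnd⟩ : ∃ n, n = 2 ^ 2 ^ k := ⟨_, rfl⟩
  rw [← hnd] at hdvd hne hlarge hd hl h hn2 hnn ⊢
  have hK : 1 ≤ K := by
    by_contra hK0
    have : K = 0 := by omega
    subst this
    have : 0 < n ^ n := by positivity
    rw [pow_zero] at hlarge
    omega
  have hcomp := digits_compressible (g := n) (L := 2 * n * 1) (by omega) (by omega) hd h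
  have hc : (2 : ℤ) ^ 2 ^ (k + 2 ^ k) = (n : ℤ) ^ n := by exact_mod_cast hnn.symm
  have hgcd : Int.gcd (d : ℤ) ((2 : ℤ) ^ 2 ^ (k + 2 ^ k) + 1) = d := by
    rw [hc]
    have : ((n : ℤ) ^ n + 1) = ((n ^ n + 1 : ℕ) : ℤ) := by push_cast; rfl
    rw [this, Int.gcd_natCast_natCast]
    exact Nat.gcd_eq_left hdvd
  have hnd2 : ¬ (2 : ℤ) ^ 2 ^ (k + 2 ^ k) + 1 ∣ (d : ℤ) := by
    rw [hc]
    intro hh
    have h1 : n ^ n + 1 ∣ d := by exact_mod_cast hh
    exact hne (Nat.dvd_antisymm hdvd h1)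
  have hle := (gcd_fermat (k + 2 ^ k) n n (2 * K + 1) 1 z n d (by omega) hnn hcomp).resolve_left
    hnd2
  rw [hgcd] at hle
  have hlarge' : (2 : ℤ) ^ 2 ^ (k + 2 ^ k) + 1 ≤ (d : ℤ) ^ K := by
    rw [hc]
    exact_mod_cast hlarge
  have h3 := Pool.Agent.K6.H86.SD.euclid_of (T := (2 * 1 + 6) ^ z) (by positivity) hlarge' hle
  rw [hc] at h3
  have h4 := fin_aux (T := (2 * 1 + 6) ^ z) hK hn2 (by push_cast; exact_mod_cast h3)
  simpa using h4

theorem result :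
    -- Euclid's lemma for `n ^ n + 1`, `n = 2 ^ (2 ^ k)`, and compressible numbers in base `n`
    (∀ (k K W z : ℕ) (x : Fin K → ℤ),
      (∀ i, Compressible (2 ^ 2 ^ k) (2 * 2 ^ 2 ^ k * W) (2 ^ 2 ^ k) z (x i)) →
      3 * K * (2 * K + 1) ^ (2 * W + 6) ^ z < 2 ^ 2 ^ k →
      (((2 ^ 2 ^ k) ^ (2 ^ 2 ^ k) + 1 : ℕ) : ℤ) ∣ ∏ i, x i →
      ∃ i, (((2 ^ 2 ^ k) ^ (2 ^ 2 ^ k) + 1 : ℕ) : ℤ) ∣ x i) ∧
    -- the digits in base `n` of the large proper divisors of `n ^ n + 1`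
    (∀ k K l z d : ℕ, d ∣ (2 ^ 2 ^ k) ^ (2 ^ 2 ^ k) + 1 → d ≠ (2 ^ 2 ^ k) ^ (2 ^ 2 ^ k) + 1 →
      (2 ^ 2 ^ k) ^ (2 ^ 2 ^ k) + 1 ≤ d ^ K → d < (2 ^ 2 ^ k) ^ l → l ≤ 2 * 2 ^ 2 ^ k →
      (LZ (fun j => ((d / (2 ^ 2 ^ k) ^ j % 2 ^ 2 ^ k : ℕ) : ℤ)) l z ∨
        LZ (fun j => ((d / (2 ^ 2 ^ k) ^ (l - 1 - j) % 2 ^ 2 ^ k : ℕ) : ℤ)) l z) →
      2 ^ 2 ^ k ≤ 3 * K * (2 * K + 1) ^ 8 ^ z) ∧
    -- Euclid's lemma for the Fermat numbers and all bases `g` such that `g ^ N = 2 ^ (2 ^ m)`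
    (∀ (m g N K W z : ℕ) (B : ℤ) (x : Fin K → ℤ), g ^ N = 2 ^ 2 ^ m →
      (∀ i, Compressible g (2 * N * W) B z (x i)) → (2 : ℤ) ^ 2 ^ m + 1 ∣ ∏ i, x i →
      (∃ i, (2 : ℤ) ^ 2 ^ m + 1 ∣ x i) ∨
        (2 : ℤ) ^ 2 ^ m ≤ (g * ((2 * W + 6) ^ z * B)) ^ (K * (2 * K + 1) ^ (2 * W + 6) ^ z)) ∧
    -- the greatest common divisor of a Fermat number and a compressible number
    (∀ (m g N Q W z : ℕ) (B x : ℤ), 1 ≤ Q → g ^ N = 2 ^ 2 ^ m →
      Compressible g (2 * N * W) B z x →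
      (2 : ℤ) ^ 2 ^ m + 1 ∣ x ∨
        (Int.gcd x ((2 : ℤ) ^ 2 ^ m + 1) : ℤ) ^ Q ≤
          (g * ((2 * W + 6) ^ z * B)) ^ (Q ^ (2 * W + 6) ^ z) * (2 ^ 2 ^ m) ^ 2) :=
  ⟨euclid_n, divisors_n, euclid_fermat, gcd_fermat⟩

end Pool.Agent.Results.MP_a70bdc_nt.CompressibleEuclid
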