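import Pool.Agent.K6.H86.SD.Main

/-!
# Euclid's lemma for `n ^ n + 1` and sparse numbers

If `n ^ n + 1` is prime and `n > 1` then `n = 2 ^ (2 ^ k)`, and `n ^ n + 1` is a Fermat number. A prime number which divides a
product divides one of the factors. We show that `n ^ n + 1`, for `n = 2 ^ (2 ^ k)`, and all Fermat numbers have this property
with respect to the sparse integers, no matter whether they are prime: if `n > 3 K (2 K + 1) ^ s` and `n ^ n + 1` divides the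
product of `K` integers with at most `s` nonzero digits in base `n` (digits of absolute value `< n`, of both signs) then it
divides one of them. So a divisor `d` of `n ^ n + 1` with `n ^ n + 1 ≤ d ^ K` has no multiples with few nonzero digits besides
the multiples of `n ^ n + 1`; in particular such a divisor `d < n ^ n + 1` has at least `c_K log n` nonzero digits. This comes
from a bound for the greatest common divisor of `g ^ N + 1` and an integer with few nonzero digits in base `g`: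

Let `g ≥ 2`, `N, Q ≥ 1`, `σ = ∑_{a ∈ S} u_a g ^ a`, `s = |S|`, `U = ∑ |u_a|`. Then `g ^ N + 1` divides `σ`, or
`gcd (σ, g ^ N + 1) ^ Q ≤ (g U) ^ (Q ^ s) g ^ (2 N)`, unless `g ^ N` is an `ℓ`-th power for an odd prime `ℓ ≤ Q ^ (s - 1)` or
`g ^ N = 4 k ^ 4` (and `Q ^ (s - 1) ≥ 4`). The exceptions cannot be omitted: if `g ^ N = h ^ ℓ` with an odd `ℓ`, then `h + 1`
divides `g ^ N + 1`, and `4 k ^ 4 + 1 = (2 k ^ 2 + 2 k + 1) (2 k ^ 2 - 2 k + 1)`.

Proof. We may assume that `0 ∈ S`. Choose `q ≤ Q ^ (s - 1)` such that all `q a`, `a ∈ S`, are near to multiples `α_a N` of `N`,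
and reduce the exponents modulo `N` (`g ^ N ≡ -1`). Let `f(X) = ∑ u_a g ^ (w + a) X ^ α_a` with a small `w`, so that
`f(1) = g ^ w σ`. The polynomial `X ^ q + g ^ (-N)` is irreducible (Capelli's theorem, `K6/H50/SPF/Irr`), so its resultant `R`
with `f` is not zero, or `f` is a multiple of it and `g ^ N + 1` divides `σ`. If `x` is a root of this polynomial and
`θ = g ^ (1 / q)` then `f(x)` is a sum of terms `u_a θ ^ (q (w + a) - α_a N) (θ ^ N x) ^ α_a` with `(θ ^ N x) ^ q = -1`, so it is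
an algebraic integer, of absolute value at most `U g ^ (w + N / (q Q))`, and congruent to `f(1)` modulo `θ ^ N x - θ ^ N`. Hence
`R` is an integer divisible by the common divisor `d`, and `|d| ≤ |R| ≤ U ^ q g ^ (q w + N / Q)`.
-/

set_option autoImplicit false

namespace Pool.Agent.Results.MP_a70bdc_nt.SparseEuclid

/-- The integer with the digits `u a` at the places `a ∈ S` in base `g`. -/
def val (g : ℕ) (S : Finset ℕ) (u : ℕ → ℤ) : ℤ := ∑ a ∈ S, u a * (g : ℤ) ^ a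

/-- The sum of the absolute values of the digits. -/
def wt (S : Finset ℕ) (u : ℕ → ℤ) : ℤ := ∑ a ∈ S, |u a|

/-- `A` is an `ℓ`-th power for an odd prime `ℓ ≤ B`, or `A = 4 k ^ 4` and `B ≥ 4`. -/
def Exc (A B : ℕ) : Prop :=
  (∃ l h : ℕ, l.Prime ∧ Odd l ∧ l ≤ B ∧ h ^ l = A) ∨ (4 ≤ B ∧ ∃ k : ℕ, 4 * k ^ 4 = A)

theorem wt_nonneg (S : Finset ℕ) (u : ℕ → ℤ) : 0 ≤ wt S u :=
  Finset.sum_nonneg fun _ _ => abs_nonneg _

theorem exc_mono {A B B' : ℕ} (h : B ≤ B') (hE : Exc A B) : Exc A B' := by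
  rcases hE with ⟨l, r, h1, h2, h3, h4⟩ | ⟨h1, h2⟩
  · exact Or.inl ⟨l, r, h1, h2, h3.trans h, h4⟩
  · exact Or.inr ⟨h1.trans h, h2⟩

theorem no_exc {m : ℕ} (hm : 2 ≤ m) (B : ℕ) : ¬ Exc (2 ^ 2 ^ m) B := by
  rintro (⟨l, h, hl, hlo, -, hh⟩ | ⟨-, k, hk⟩)
  · obtain ⟨j, -, rfl⟩ := (Nat.dvd_prime_pow Nat.prime_two).1
      (show h ∣ 2 ^ 2 ^ m by rw [← hh]; exact dvd_pow_self h hl.ne_zero)
    rw [← pow_mul] at hh
    have h1 := Nat.pow_right_injective (le_refl 2) hh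
    have h2 : l ∣ 2 ^ m := ⟨j, by rw [← h1]; ring⟩
    have h3 : l = 2 := (Nat.prime_dvd_prime_iff_eq hl Nat.prime_two).1 (hl.dvd_of_dvd_pow h2)
    rw [h3] at hlo
    exact absurd hlo (by decide)
  · obtain ⟨j, -, rfl⟩ := (Nat.dvd_prime_pow Nat.prime_two).1
      (show k ∣ 2 ^ 2 ^ m by rw [← hk]; exact Dvd.dvd.mul_left (dvd_pow_self k (by norm_num)) 4)
    have h1 : 2 ^ (2 + 4 * j) = 2 ^ 2 ^ m := by
      rw [← hk, pow_add, mul_comm 4 j, pow_mul]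
      norm_num
    have h2 := Nat.pow_right_injective (le_refl 2) h1
    obtain ⟨m', rfl⟩ := Nat.exists_eq_add_of_le hm
    rw [pow_add] at h2
    omega

theorem gcd_general (g N Q : ℕ) (S : Finset ℕ) (u : ℕ → ℤ) (hg : 2 ≤ g) (hN : 1 ≤ N)
    (hQ : 1 ≤ Q) :
    (g : ℤ) ^ N + 1 ∣ val g S u ∨
    (Int.gcd (val g S u) ((g : ℤ) ^ N + 1) : ℤ) ^ Q ≤
      (g * wt S u) ^ (Q ^ S.card) * (g : ℤ) ^ (2 * N) ∨
    Exc (g ^ N) (Q ^ (S.card - 1)) := by
  by_contra hcon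
  rw [not_or, not_or] at hcon
  apply hcon.2.1
  have h := Pool.Agent.K6.H86.SD.main hg hN hQ S u
    (Int.gcd (val g S u) ((g : ℤ) ^ N + 1) : ℤ) hcon.2.2 (Int.gcd_dvd_right _ _)
    (Int.gcd_dvd_left _ _) hcon.1
  rwa [abs_of_nonneg (by positivity)] at h

/-- A divisor of a product divides the product of the greatest common divisors. -/
theorem dvd_prod_gcd {ι : Type*} (F : ℤ) (x : ι → ℤ) (s : Finset ι) (a : ℤ)
    (h : F ∣ a * ∏ i ∈ s, x i) : F ∣ a * ∏ i ∈ s, (Int.gcd (x i) F : ℤ) := by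
  classical
  induction s using Finset.induction_on generalizing a with
  | empty => simpa using h
  | insert j s hj ih =>
    rw [Finset.prod_insert hj] at h ⊢
    have h1 : F ∣ x j * (a * ∏ i ∈ s, x i) := by
      rw [show x j * (a * ∏ i ∈ s, x i) = a * (x j * ∏ i ∈ s, x i) by ring]
      exact h
    have h2 : F ∣ (Int.gcd (x j) F : ℤ) * (a * ∏ i ∈ s, x i) := by
      have h3 : F ∣ gcd F (x j) * (a * ∏ i ∈ s, x i) := dvd_gcd_mul_of_dvd_mul h1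
      have h4 : gcd F (x j) = (Int.gcd (x j) F : ℤ) := by
        rw [Int.gcd_comm, Int.coe_gcd]
      rwa [h4] at h3
    have h5 := ih (a * (Int.gcd (x j) F : ℤ)) (by
      rw [show a * (Int.gcd (x j) F : ℤ) * ∏ i ∈ s, x i =
        (Int.gcd (x j) F : ℤ) * (a * ∏ i ∈ s, x i) by ring]
      exact h2)
    rw [show a * ((Int.gcd (x j) F : ℤ) * ∏ i ∈ s, (Int.gcd (x i) F : ℤ)) =
      a * (Int.gcd (x j) F : ℤ) * ∏ i ∈ s, (Int.gcd (x i) F : ℤ) by ring]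
    exact h5

/-- One of the greatest common divisors is large. -/
theorem exists_large {K : ℕ} {F : ℤ} (hF : 1 < F) (x : Fin K → ℤ) (h : F ∣ ∏ i, x i) :
    ∃ i, F ≤ (Int.gcd (x i) F : ℤ) ^ K := by
  have h1 : F ∣ ∏ i, (Int.gcd (x i) F : ℤ) := by
    have := dvd_prod_gcd F x Finset.univ 1 (by simpa using h)
    simpa using this
  have hpos : ∀ i, 0 < (Int.gcd (x i) F : ℤ) := by
    intro i
    have : 0 < Int.gcd (x i) F := Int.gcd_pos_of_ne_zero_right _ (by omega)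
    exact_mod_cast this
  have h2 : F ≤ ∏ i, (Int.gcd (x i) F : ℤ) :=
    Int.le_of_dvd (Finset.prod_pos fun i _ => hpos i) h1
  rcases Nat.eq_zero_or_pos K with rfl | hK
  · simp at h2
    omega
  have : Nonempty (Fin K) := ⟨⟨0, hK⟩⟩
  obtain ⟨j, hj⟩ := Finite.exists_max (fun i => (Int.gcd (x i) F : ℤ))
  refine ⟨j, h2.trans ?_⟩
  calc ∏ i, (Int.gcd (x i) F : ℤ) ≤ ∏ _i : Fin K, (Int.gcd (x j) F : ℤ) :=
        Finset.prod_le_prod (fun i _ => (hpos i).le) (fun i _ => hj i)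
    _ = (Int.gcd (x j) F : ℤ) ^ K := by simp

/-- Euclid's lemma for `g ^ N + 1` and sparse numbers. -/
theorem euclid_general (g N K s : ℕ) (U : ℤ) (S : Fin K → Finset ℕ) (u : Fin K → ℕ → ℤ)
    (hg : 2 ≤ g) (hN : 1 ≤ N) (hs : ∀ i, (S i).card ≤ s) (hU : ∀ i, wt (S i) (u i) ≤ U)
    (h : (g : ℤ) ^ N + 1 ∣ ∏ i, val g (S i) (u i)) :
    (∃ i, (g : ℤ) ^ N + 1 ∣ val g (S i) (u i)) ∨
    (g : ℤ) ^ N ≤ (g * U) ^ (K * (2 * K + 1) ^ s) ∨
    Exc (g ^ N) ((2 * K + 1) ^ (s - 1)) := by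
  by_contra hcon
  rw [not_or, not_or] at hcon
  obtain ⟨hc1, hc2, hc3⟩ := hcon
  have hg1 : (1 : ℤ) ≤ g := by exact_mod_cast (by omega : 1 ≤ g)
  have hg0 : (0 : ℤ) < g := by linarith
  have hgN : (1 : ℤ) ≤ (g : ℤ) ^ N := one_le_pow₀ hg1
  obtain ⟨i, hi⟩ := exists_large (by linarith) _ h
  apply hc2
  have hni : ¬ (g : ℤ) ^ N + 1 ∣ val g (S i) (u i) := fun hh => hc1 ⟨i, hh⟩
  have hle := (gcd_general g N (2 * K + 1) (S i) (u i) hg hN (by omega)).resolve_left hni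
  have hle2 := hle.resolve_right fun hE => hc3 (exc_mono
    (Nat.pow_le_pow_right (by omega) (Nat.sub_le_sub_right (hs i) 1)) hE)
  set D : ℤ := (Int.gcd (val g (S i) (u i)) ((g : ℤ) ^ N + 1) : ℤ) with hD
  have hD0 : 0 ≤ D := by positivity
  have hwt0 : 0 ≤ wt (S i) (u i) := wt_nonneg _ _
  have hwt1 : 1 ≤ wt (S i) (u i) := by
    by_contra hlt
    have hz : wt (S i) (u i) = 0 := by omega
    apply hni
    have : val g (S i) (u i) = 0 := by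
      unfold val
      refine Finset.sum_eq_zero fun a ha => ?_
      have h1 : |u i a| = 0 := by
        unfold wt at hz
        exact (Finset.sum_eq_zero_iff_of_nonneg (fun _ _ => abs_nonneg _)).1 hz a ha
      rw [abs_eq_zero.1 h1, zero_mul]
    rw [this]
    exact dvd_zero _
  have hU1 : 1 ≤ U := hwt1.trans (hU i)
  have hgU : (1 : ℤ) ≤ g * U := by nlinarith
  have hle3 : D ^ (2 * K + 1) ≤ (g * U) ^ ((2 * K + 1) ^ s) * (g : ℤ) ^ (2 * N) := by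
    refine hle2.trans (mul_le_mul_of_nonneg_right ?_ (by positivity))
    calc ((g : ℤ) * wt (S i) (u i)) ^ ((2 * K + 1) ^ (S i).card)
        ≤ (g * U) ^ ((2 * K + 1) ^ (S i).card) :=
          pow_le_pow_left₀ (by positivity) (mul_le_mul_of_nonneg_left (hU i) hg0.le) _
      _ ≤ (g * U) ^ ((2 * K + 1) ^ s) :=
          pow_le_pow_right₀ hgU (Nat.pow_le_pow_right (by omega) (hs i))
  have h5 : ((g : ℤ) ^ N) ^ (2 * K + 1) ≤
      (g * U) ^ (K * (2 * K + 1) ^ s) * ((g : ℤ) ^ N) ^ (2 * K) := by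
    calc ((g : ℤ) ^ N) ^ (2 * K + 1) ≤ (D ^ K) ^ (2 * K + 1) :=
          pow_le_pow_left₀ (by positivity) (by linarith) _
      _ = (D ^ (2 * K + 1)) ^ K := by rw [← pow_mul, ← pow_mul, mul_comm]
      _ ≤ ((g * U) ^ ((2 * K + 1) ^ s) * (g : ℤ) ^ (2 * N)) ^ K :=
          pow_le_pow_left₀ (by positivity) hle3 _
      _ = (g * U) ^ (K * (2 * K + 1) ^ s) * ((g : ℤ) ^ N) ^ (2 * K) := by
          rw [mul_pow, ← pow_mul, ← pow_mul, ← pow_mul, mul_comm K]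
          congr 2
          ring
  rw [pow_succ'] at h5
  exact le_of_mul_le_mul_right h5 (by positivity)

theorem base_aux {m g N : ℕ} (hgN : g ^ N = 2 ^ 2 ^ m) : 2 ≤ g ∧ 1 ≤ N := by
  have h1 : 1 < 2 ^ 2 ^ m := Nat.one_lt_two_pow (by positivity)
  constructor
  · by_contra hcon
    have : g = 0 ∨ g = 1 := by omega
    rcases this with rfl | rfl
    · rcases Nat.eq_zero_or_pos N with rfl | hN
      · rw [pow_zero] at hgN; omega
      · rw [zero_pow (by omega)] at hgN; omega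
    · rw [one_pow] at hgN; omega
  · by_contra hcon
    have : N = 0 := by omega
    rw [this, pow_zero] at hgN
    omega

theorem prime_small {m : ℕ} (hm : m < 2) : Prime ((2 : ℤ) ^ 2 ^ m + 1) := by
  have hp : (2 ^ 2 ^ m + 1).Prime := by
    interval_cases m <;> norm_num
  exact_mod_cast Nat.prime_iff_prime_int.1 hp

/-- Fermat numbers: no exceptions. -/
theorem euclid_fermat (m g N K s : ℕ) (U : ℤ) (S : Fin K → Finset ℕ) (u : Fin K → ℕ → ℤ)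
    (hgN : g ^ N = 2 ^ 2 ^ m) (hs : ∀ i, (S i).card ≤ s) (hU : ∀ i, wt (S i) (u i) ≤ U)
    (h : (2 : ℤ) ^ 2 ^ m + 1 ∣ ∏ i, val g (S i) (u i)) :
    (∃ i, (2 : ℤ) ^ 2 ^ m + 1 ∣ val g (S i) (u i)) ∨
    (2 : ℤ) ^ 2 ^ m ≤ (g * U) ^ (K * (2 * K + 1) ^ s) := by
  rcases Nat.lt_or_ge m 2 with hm | hm
  · left
    obtain ⟨i, -, hi⟩ := (Prime.dvd_finsetProd_iff (prime_small hm) _).1 h
    exact ⟨i, hi⟩
  obtain ⟨hg, hN⟩ := base_aux hgN
  have hc : (2 : ℤ) ^ 2 ^ m = (g : ℤ) ^ N := by exact_mod_cast hgN.symm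
  rw [hc] at h ⊢
  rcases euclid_general g N K s U S u hg hN hs hU h with h1 | h1 | h1
  · exact Or.inl h1
  · exact Or.inr h1
  · rw [hgN] at h1
    exact absurd h1 (no_exc hm _)

theorem gcd_fermat (m g N Q : ℕ) (S : Finset ℕ) (u : ℕ → ℤ) (hQ : 1 ≤ Q)
    (hgN : g ^ N = 2 ^ 2 ^ m) :
    (2 : ℤ) ^ 2 ^ m + 1 ∣ val g S u ∨
    (Int.gcd (val g S u) ((2 : ℤ) ^ 2 ^ m + 1) : ℤ) ^ Q ≤
      (g * wt S u) ^ (Q ^ S.card) * (2 ^ 2 ^ m) ^ 2 := by
  obtain ⟨hg, hN⟩ := base_aux hgN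
  have hc : (2 : ℤ) ^ 2 ^ m = (g : ℤ) ^ N := by exact_mod_cast hgN.symm
  rcases Nat.lt_or_ge m 2 with hm | hm
  · by_contra hcon
    rw [not_or] at hcon
    apply hcon.2
    have hp := prime_small hm
    have h1 : (Int.gcd (val g S u) ((2 : ℤ) ^ 2 ^ m + 1) : ℤ) = 1 := by
      have h2 : IsCoprime ((2 : ℤ) ^ 2 ^ m + 1) (val g S u) :=
        (Irreducible.coprime_iff_not_dvd hp.irreducible).2 hcon.1
      rw [Int.gcd_comm]
      exact_mod_cast Int.isCoprime_iff_gcd_eq_one.1 h2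
    rw [h1, one_pow]
    have hwt1 : 1 ≤ wt S u := by
      by_contra hlt
      have hz : wt S u = 0 := by
        have := wt_nonneg S u
        omega
      apply hcon.1
      have : val g S u = 0 := by
        unfold val
        refine Finset.sum_eq_zero fun a ha => ?_
        have h1 : |u a| = 0 := by
          unfold wt at hz
          exact (Finset.sum_eq_zero_iff_of_nonneg (fun _ _ => abs_nonneg _)).1 hz a ha
        rw [abs_eq_zero.1 h1, zero_mul]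
      rw [this]
      exact dvd_zero _
    have hg1 : (1 : ℤ) ≤ g := by exact_mod_cast (by omega : 1 ≤ g)
    have h3 : (1 : ℤ) ≤ (g * wt S u) ^ (Q ^ S.card) := one_le_pow₀ (by nlinarith)
    have h4 : (1 : ℤ) ≤ (2 ^ 2 ^ m) ^ 2 := one_le_pow₀ (one_le_pow₀ (by norm_num))
    nlinarith
  · rcases gcd_general g N Q S u hg hN hQ with h1 | h1 | h1
    · left
      rw [hc]
      exact h1
    · right
      rw [hc, ← pow_mul, mul_comm N 2]
      exact h1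
    · rw [hgN] at h1
      exact absurd h1 (no_exc hm _)

/-- Euclid's lemma for `n ^ n + 1` and sparse numbers. -/
theorem euclid_n (k K s : ℕ) (S : Fin K → Finset ℕ) (u : Fin K → ℕ → ℤ)
    (hs : ∀ i, (S i).card ≤ s) (hu : ∀ i, ∀ a ∈ S i, |u i a| < 2 ^ 2 ^ k)
    (hn : 3 * K * (2 * K + 1) ^ s < 2 ^ 2 ^ k)
    (h : (((2 ^ 2 ^ k) ^ (2 ^ 2 ^ k) + 1 : ℕ) : ℤ) ∣ ∏ i, val (2 ^ 2 ^ k) (S i) (u i)) :
    ∃ i, (((2 ^ 2 ^ k) ^ (2 ^ 2 ^ k) + 1 : ℕ) : ℤ) ∣ val (2 ^ 2 ^ k) (S i) (u i) := by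
  by_contra hcon
  set n : ℕ := 2 ^ 2 ^ k with hnd
  have hn2 : 2 ≤ n := by
    rw [hnd]
    calc 2 = 2 ^ 1 := rfl
      _ ≤ 2 ^ 2 ^ k := Nat.pow_le_pow_right (by norm_num) Nat.one_le_two_pow
  have hnn : n ^ n = 2 ^ 2 ^ (k + 2 ^ k) := by
    conv_lhs => rw [hnd, ← pow_mul]
    congr 1
    exact (pow_add 2 k (2 ^ k)).symm
  have hcast : (((n ^ n + 1 : ℕ)) : ℤ) = (2 : ℤ) ^ 2 ^ (k + 2 ^ k) + 1 := by
    rw [hnn]
    push_cast
    rfl
  rw [hcast] at h hcon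
  have hK : 1 ≤ K := by
    by_contra hK0
    have : K = 0 := by omega
    subst this
    simp only [Finset.univ_eq_empty, Finset.prod_empty] at h
    have h1 := Int.le_of_dvd one_pos h
    have h2 : (0 : ℤ) < (2 : ℤ) ^ 2 ^ (k + 2 ^ k) := by positivity
    omega
  have hsn : s ≤ n := by
    have h1 : s < 2 ^ s := Nat.lt_two_pow_self
    have h2 : 2 ^ s ≤ (2 * K + 1) ^ s := Nat.pow_le_pow_left (by omega) s
    have h3 : (2 * K + 1) ^ s ≤ 3 * K * (2 * K + 1) ^ s := Nat.le_mul_of_pos_left _ (by omega)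
    omega
  have hU : ∀ i, wt (S i) (u i) ≤ (n : ℤ) ^ 2 := by
    intro i
    have hcard : ((S i).card : ℤ) ≤ n := by exact_mod_cast (hs i).trans hsn
    have hnZ : (0 : ℤ) ≤ n := by positivity
    calc wt (S i) (u i) = ∑ a ∈ S i, |u i a| := rfl
      _ ≤ ∑ a ∈ S i, (n : ℤ) := Finset.sum_le_sum fun a ha => by
          have := hu i a ha
          rw [hnd]
          push_cast
          exact this.le
      _ = (S i).card * n := by rw [Finset.sum_const, nsmul_eq_mul]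
      _ ≤ (n : ℤ) ^ 2 := by nlinarith
  have h1 := (euclid_fermat (k + 2 ^ k) n n K s ((n : ℤ) ^ 2) S u hnn hs hU h).resolve_left hcon
  have h2 : (n : ℤ) ^ n ≤ (n : ℤ) ^ (3 * (K * (2 * K + 1) ^ s)) := by
    have e1 : (2 : ℤ) ^ 2 ^ (k + 2 ^ k) = (n : ℤ) ^ n := by exact_mod_cast hnn.symm
    rw [e1] at h1
    refine h1.trans (le_of_eq ?_)
    rw [show (n : ℤ) * (n : ℤ) ^ 2 = (n : ℤ) ^ 3 by ring, ← pow_mul]
  have h3 : n ^ n ≤ n ^ (3 * (K * (2 * K + 1) ^ s)) := by exact_mod_cast h2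
  have h4 := (Nat.pow_le_pow_iff_right (by omega : 1 < n)).1 h3
  have h5 : 3 * (K * (2 * K + 1) ^ s) = 3 * K * (2 * K + 1) ^ s := by ring
  omega

theorem result :
    -- Euclid's lemma for `n ^ n + 1`, `n = 2 ^ (2 ^ k)`, and numbers with few digits in base `n`
    (∀ (k K s : ℕ) (S : Fin K → Finset ℕ) (u : Fin K → ℕ → ℤ), (∀ i, (S i).card ≤ s) →
      (∀ i, ∀ a ∈ S i, |u i a| < 2 ^ 2 ^ k) → 3 * K * (2 * K + 1) ^ s < 2 ^ 2 ^ k →
      (((2 ^ 2 ^ k) ^ (2 ^ 2 ^ k) + 1 : ℕ) : ℤ) ∣ ∏ i, val (2 ^ 2 ^ k) (S i) (u i) →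
      ∃ i, (((2 ^ 2 ^ k) ^ (2 ^ 2 ^ k) + 1 : ℕ) : ℤ) ∣ val (2 ^ 2 ^ k) (S i) (u i)) ∧
    -- the same for the Fermat numbers and all bases `g` such that `g ^ N = 2 ^ (2 ^ m)`
    (∀ (m g N K s : ℕ) (U : ℤ) (S : Fin K → Finset ℕ) (u : Fin K → ℕ → ℤ),
      g ^ N = 2 ^ 2 ^ m → (∀ i, (S i).card ≤ s) → (∀ i, wt (S i) (u i) ≤ U) →
      (2 : ℤ) ^ 2 ^ m + 1 ∣ ∏ i, val g (S i) (u i) →
      (∃ i, (2 : ℤ) ^ 2 ^ m + 1 ∣ val g (S i) (u i)) ∨
        (2 : ℤ) ^ 2 ^ m ≤ (g * U) ^ (K * (2 * K + 1) ^ s)) ∧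
    -- the greatest common divisor of a Fermat number and a sparse number
    (∀ (m g N Q : ℕ) (S : Finset ℕ) (u : ℕ → ℤ), 1 ≤ Q → g ^ N = 2 ^ 2 ^ m →
      (2 : ℤ) ^ 2 ^ m + 1 ∣ val g S u ∨
        (Int.gcd (val g S u) ((2 : ℤ) ^ 2 ^ m + 1) : ℤ) ^ Q ≤
          (g * wt S u) ^ (Q ^ S.card) * (2 ^ 2 ^ m) ^ 2) ∧
    -- all numbers `g ^ N + 1`
    (∀ (g N Q : ℕ) (S : Finset ℕ) (u : ℕ → ℤ), 2 ≤ g → 1 ≤ N → 1 ≤ Q →
      (g : ℤ) ^ N + 1 ∣ val g S u ∨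
        (Int.gcd (val g S u) ((g : ℤ) ^ N + 1) : ℤ) ^ Q ≤
          (g * wt S u) ^ (Q ^ S.card) * (g : ℤ) ^ (2 * N) ∨
        Exc (g ^ N) (Q ^ (S.card - 1))) ∧
    (∀ (g N K s : ℕ) (U : ℤ) (S : Fin K → Finset ℕ) (u : Fin K → ℕ → ℤ), 2 ≤ g → 1 ≤ N →
      (∀ i, (S i).card ≤ s) → (∀ i, wt (S i) (u i) ≤ U) →
      (g : ℤ) ^ N + 1 ∣ ∏ i, val g (S i) (u i) →
      (∃ i, (g : ℤ) ^ N + 1 ∣ val g (S i) (u i)) ∨
        (g : ℤ) ^ N ≤ (g * U) ^ (K * (2 * K + 1) ^ s) ∨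
        Exc (g ^ N) ((2 * K + 1) ^ (s - 1))) :=
  ⟨euclid_n, euclid_fermat, fun m g N Q S u => gcd_fermat m g N Q S u, gcd_general,
    euclid_general⟩

end Pool.Agent.Results.MP_a70bdc_nt.SparseEuclid
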