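import Pool.Agent.K6.H50.SPF.Main

/-!
# Sparse factors of `n ^ n + 1`

If `n ^ n + 1` is prime and `n > 1` then `n = 2 ^ (2 ^ k)`, and `n ^ n + 1` is a Fermat number. We show that the factorizations of
these numbers (and of all Fermat numbers) are not sparse: in a factorization `n ^ n + 1 = d e` with `|d|, |e| ≠ 1` the factors
cannot both have few nonzero digits in base `n`, or in base `2`, or in any base `g` with `g ^ N = n ^ n`, where the digits may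
have both signs and may be large. This comes from a theorem on the factorizations `g ^ N + 1 = d e` for all `g ≥ 2` and `N ≥ 1`.
Let `d = ∑_{a ∈ S} u_a g ^ a`, `e = ∑_{b ∈ T} v_b g ^ b`, `s = |S|`, `t = |T|`, `U = ∑ |u_a|`, `V = ∑ |v_b|`. Then

* `g ^ N ≤ (|d| V + 1) ^ t`, without exceptions;
* `g ^ N ≤ (U V + 2) ^ ((6 t) ^ s)`, unless `g ^ N` is an `ℓ`-th power for an odd prime `ℓ ≤ (6 t) ^ (s - 1)` or
  `g ^ N = 4 k ^ 4` (and `(6 t) ^ (s - 1) ≥ 4`);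
* `g ^ N ≤ (U V + 2) ^ (5 ^ (s + t - 1))`, with the same exceptions for the bound `5 ^ (s + t - 2)`.

The exceptions cannot be omitted: if `g ^ N = h ^ ℓ` with an odd `ℓ`, then `h + 1` and `h ^ (ℓ - 1) - h ^ (ℓ - 2) + - … + 1` have
`2` and `ℓ` nonzero digits in base `g`, and `4 k ^ 4 + 1 = (2 k ^ 2 + 2 k + 1) (2 k ^ 2 - 2 k + 1)`.

Proof. Choose `q ≤ (6 t) ^ (s - 1)` such that all `q a`, `a ∈ S`, are near to multiples `α_a N` of `N`, and a threshold which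
separates the `b ∈ T` with `q b` near to a multiple `β_b N` from the others. If the bound does not hold then the terms
`u_a v_b g ^ (a + b)`, `-1`, `-g ^ N` are separated by large gaps according to the position of `q (a + b)` modulo `N`, so the
terms of every type have the sum zero. Hence `D(X) E(X) = g ^ N X ^ q + 1` with `D = ∑ u_a g ^ a X ^ α_a` and
`E = ∑ v_b g ^ b X ^ β_b` (over the near `b`), and this polynomial is irreducible unless we are in an exceptional case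
(Capelli's theorem, proved in `K6/H50/SPF/Irr` for positive constants), so `d = D(1) = ±1` or `E(1) = ±1`, `e = ±1`.
-/

set_option autoImplicit false

namespace Pool.Agent.Results.MP_a70bdc_nt.SparseFactors

/-- The integer with the digits `u a` at the places `a ∈ S` in base `g`. -/
def val (g : ℕ) (S : Finset ℕ) (u : ℕ → ℤ) : ℤ := ∑ a ∈ S, u a * (g : ℤ) ^ a

/-- The sum of the absolute values of the digits. -/
def wt (S : Finset ℕ) (u : ℕ → ℤ) : ℤ := ∑ a ∈ S, |u a|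

/-- `A` is an `ℓ`-th power for an odd prime `ℓ ≤ B`, or `A = 4 k ^ 4` and `B ≥ 4`. -/
def Exc (A B : ℕ) : Prop :=
  (∃ l h : ℕ, l.Prime ∧ Odd l ∧ l ≤ B ∧ h ^ l = A) ∨ (4 ≤ B ∧ ∃ k : ℕ, 4 * k ^ 4 = A)

theorem no_exc {m : ℕ} (hm : 2 ≤ m) (B : ℕ) : ¬ Exc (2 ^ 2 ^ m) B := by
  rintro (⟨l, h, hl, hlo, -, hh⟩ | ⟨-, k, hk⟩)
  · obtain ⟨j, -, rfl⟩ := (Nat.dvd_prime_pow Nat.prime_two).1
      (show h ∣ 2 ^ 2 ^ m by rw [← hh]; exact dvd_pow_self h hl.ne_zero)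
    rw [← pow_mul] at hh
    have h1 := Nat.pow_right_injective (le_refl 2) hh
    have h2 : l ∣ 2 ^ m := ⟨j, by rw [← h1]; ring⟩
    have h3 : l = 2 := (Nat.prime_dvd_prime_iff_eq hl Nat.prime_two).1 (hl.dvd_of_dvd_pow h2)
    rw [h3] at hlo
    exact absurd hlo (by decide)
  · obtain ⟨j, -, rfl⟩ := (Nat.dvd_prime_pow Nat.prime_two).1
      (show k ∣ 2 ^ 2 ^ m by rw [← hk]; exact Dvd.dvd.mul_left (dvd_pow_self k (by norm_num)) 4)
    have h1 : 2 ^ (2 + 4 * j) = 2 ^ 2 ^ m := by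
      rw [← hk, pow_add, mul_comm 4 j, pow_mul]
      norm_num
    have h2 := Nat.pow_right_injective (le_refl 2) h1
    obtain ⟨m', rfl⟩ := Nat.exists_eq_add_of_le hm
    rw [pow_add] at h2
    omega

/-- Small Fermat numbers. -/
theorem small {m : ℕ} (hm : m < 2) (d e : ℤ) (h : d * e = (2 : ℤ) ^ 2 ^ m + 1) (hd : |d| ≠ 1)
    (he : |e| ≠ 1) : False := by
  have h1 : d.natAbs * e.natAbs = 2 ^ 2 ^ m + 1 := by
    rw [← Int.natAbs_mul, h]
    have : ((2 : ℤ) ^ 2 ^ m + 1) = ((2 ^ 2 ^ m + 1 : ℕ) : ℤ) := by push_cast; rfl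
    rw [this, Int.natAbs_natCast]
  have hp : (2 ^ 2 ^ m + 1).Prime := by
    interval_cases m <;> norm_num
  rw [← h1, Nat.prime_mul_iff] at hp
  rcases hp with ⟨-, h2⟩ | ⟨-, h2⟩
  · exact he (by rw [Int.abs_eq_natAbs, h2]; rfl)
  · exact hd (by rw [Int.abs_eq_natAbs, h2]; rfl)

theorem general (g N : ℕ) (S T : Finset ℕ) (u v : ℕ → ℤ) (hg : 2 ≤ g) (hN : 1 ≤ N)
    (h : val g S u * val g T v = (g : ℤ) ^ N + 1) (hd : |val g S u| ≠ 1) (he : |val g T v| ≠ 1) :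
    (g : ℤ) ^ N ≤ (|val g S u| * wt T v + 1) ^ T.card ∧
    ((g : ℤ) ^ N ≤ (wt S u * wt T v + 2) ^ ((6 * T.card) ^ S.card) ∨
      Exc (g ^ N) ((6 * T.card) ^ (S.card - 1))) ∧
    ((g : ℤ) ^ N ≤ (wt S u * wt T v + 2) ^ (5 ^ (S.card + T.card - 1)) ∨
      Exc (g ^ N) (5 ^ (S.card + T.card - 2))) := by
  refine ⟨Pool.Agent.K6.H50.SPF.divisor hg hN T v _ h hd, ?_, ?_⟩
  · by_contra hcon
    rw [not_or] at hcon
    exact hcon.1 (Pool.Agent.K6.H50.SPF.one_sided hg hN S T u v h hd he hcon.2)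
  · by_contra hcon
    rw [not_or] at hcon
    exact hcon.1 (Pool.Agent.K6.H50.SPF.two_sided hg hN S T u v h hd he hcon.2)

theorem fermat (m g N : ℕ) (S T : Finset ℕ) (u v : ℕ → ℤ) (hgN : g ^ N = 2 ^ 2 ^ m)
    (h : val g S u * val g T v = (2 : ℤ) ^ 2 ^ m + 1) (hd : |val g S u| ≠ 1)
    (he : |val g T v| ≠ 1) :
    (2 : ℤ) ^ 2 ^ m ≤ (|val g S u| * wt T v + 1) ^ T.card ∧
    (2 : ℤ) ^ 2 ^ m ≤ (wt S u * wt T v + 2) ^ ((6 * T.card) ^ S.card) ∧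
    (2 : ℤ) ^ 2 ^ m ≤ (wt S u * wt T v + 2) ^ (5 ^ (S.card + T.card - 1)) := by
  rcases Nat.lt_or_ge m 2 with hm | hm
  · exact (small hm _ _ h hd he).elim
  have h1 : 1 < 2 ^ 2 ^ m := Nat.one_lt_two_pow (by positivity)
  have hg : 2 ≤ g := by
    by_contra hcon
    have : g = 0 ∨ g = 1 := by omega
    rcases this with rfl | rfl
    · rcases Nat.eq_zero_or_pos N with rfl | hN
      · rw [pow_zero] at hgN; omega
      · rw [zero_pow (by omega)] at hgN; omega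
    · rw [one_pow] at hgN; omega
  have hN : 1 ≤ N := by
    by_contra hcon
    have : N = 0 := by omega
    rw [this, pow_zero] at hgN
    omega
  have hc : (2 : ℤ) ^ 2 ^ m = (g : ℤ) ^ N := by exact_mod_cast hgN.symm
  rw [hc] at h ⊢
  obtain ⟨a1, a2, a3⟩ := general g N S T u v hg hN h hd he
  rw [hgN] at a2 a3
  exact ⟨a1, a2.resolve_right (no_exc hm _), a3.resolve_right (no_exc hm _)⟩

theorem digits_aux {n B s t : ℕ} (hn : 2 ≤ n) {U V : ℤ} (hU0 : 0 ≤ U) (hV0 : 0 ≤ V)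
    (hU : U ≤ s * ((n : ℤ) - 1)) (hV : V ≤ t * ((n : ℤ) - 1)) (hst : s * t ≤ B)
    (h : (n : ℤ) ^ n ≤ (U * V + 2) ^ B) : n ≤ 3 * B := by
  by_contra hcon
  rw [not_le] at hcon
  have hn' : (2 : ℤ) ≤ n := by exact_mod_cast hn
  have hst' : (s : ℤ) * t ≤ n := by
    have : s * t ≤ n := by omega
    exact_mod_cast this
  have h1 : U * V ≤ (s * ((n : ℤ) - 1)) * (t * ((n : ℤ) - 1)) :=
    mul_le_mul hU hV hV0 (hU0.trans hU)
  have h2 : (s * ((n : ℤ) - 1)) * (t * ((n : ℤ) - 1)) ≤ n * ((n : ℤ) - 1) ^ 2 := by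
    calc (s * ((n : ℤ) - 1)) * (t * ((n : ℤ) - 1)) = (s * t) * ((n : ℤ) - 1) ^ 2 := by ring
      _ ≤ n * ((n : ℤ) - 1) ^ 2 := mul_le_mul_of_nonneg_right hst' (sq_nonneg _)
  have h3 : U * V + 2 ≤ (n : ℤ) ^ 3 := by nlinarith
  have h4 : (n : ℤ) ^ n ≤ (n : ℤ) ^ (3 * B) := by
    calc (n : ℤ) ^ n ≤ (U * V + 2) ^ B := h
      _ ≤ ((n : ℤ) ^ 3) ^ B := pow_le_pow_left₀ (by positivity) h3 B
      _ = (n : ℤ) ^ (3 * B) := by rw [← pow_mul]
  have h5 : n ^ n ≤ n ^ (3 * B) := by exact_mod_cast h4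
  have h6 := (Nat.pow_le_pow_iff_right (by omega : 1 < n)).1 h5
  omega

theorem wt_le {n : ℕ} (S : Finset ℕ) (u : ℕ → ℤ) (hu : ∀ a ∈ S, |u a| < n) :
    wt S u ≤ S.card * ((n : ℤ) - 1) := by
  unfold wt
  have := Finset.sum_le_card_nsmul S (fun a => |u a|) ((n : ℤ) - 1) (fun a ha => by
    have := hu a ha
    omega)
  simpa using this

theorem card_mul_le (s t : ℕ) (hs : 1 ≤ s) : s * t ≤ (6 * t) ^ s := by
  calc s * t ≤ 6 ^ s * t ^ s := Nat.mul_le_mul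
        (Nat.lt_pow_self (by norm_num)).le (Nat.le_self_pow (by omega) t)
    _ = (6 * t) ^ s := by rw [mul_pow]

theorem card_mul_le' (s t : ℕ) (hs : 1 ≤ s) (ht : 1 ≤ t) : s * t ≤ 5 ^ (s + t - 1) := by
  obtain ⟨a, rfl⟩ := Nat.exists_eq_add_of_le hs
  obtain ⟨b, rfl⟩ := Nat.exists_eq_add_of_le ht
  have e : 1 + a + (1 + b) - 1 = a + (1 + b) := by omega
  rw [e, pow_add]
  have h1 : 1 + a ≤ 5 ^ a := by
    have : a < 5 ^ a := Nat.lt_pow_self (by norm_num)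
    omega
  exact Nat.mul_le_mul h1 (Nat.lt_pow_self (by norm_num)).le

/-- **Sparse factors of `n ^ n + 1`.** (1) The general theorem for `g ^ N + 1`. (2) The Fermat numbers, in all bases `g` with
`g ^ N = 2 ^ (2 ^ m)`; for `m = k + 2 ^ k` they are the numbers `n ^ n + 1`, `n = 2 ^ (2 ^ k)`. (3) The numbers `n ^ n + 1`,
`n = 2 ^ (2 ^ k)`, in base `n` with digits of absolute value less than `n`. -/
theorem result :
    (∀ (g N : ℕ) (S T : Finset ℕ) (u v : ℕ → ℤ), 2 ≤ g → 1 ≤ N →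
      val g S u * val g T v = (g : ℤ) ^ N + 1 → |val g S u| ≠ 1 → |val g T v| ≠ 1 →
      (g : ℤ) ^ N ≤ (|val g S u| * wt T v + 1) ^ T.card ∧
      ((g : ℤ) ^ N ≤ (wt S u * wt T v + 2) ^ ((6 * T.card) ^ S.card) ∨
        Exc (g ^ N) ((6 * T.card) ^ (S.card - 1))) ∧
      ((g : ℤ) ^ N ≤ (wt S u * wt T v + 2) ^ (5 ^ (S.card + T.card - 1)) ∨
        Exc (g ^ N) (5 ^ (S.card + T.card - 2)))) ∧
    ((∀ k : ℕ, (2 ^ 2 ^ k) ^ (2 ^ 2 ^ k) = 2 ^ 2 ^ (k + 2 ^ k)) ∧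
      ∀ (m g N : ℕ) (S T : Finset ℕ) (u v : ℕ → ℤ), g ^ N = 2 ^ 2 ^ m →
      val g S u * val g T v = (2 : ℤ) ^ 2 ^ m + 1 → |val g S u| ≠ 1 → |val g T v| ≠ 1 →
      (2 : ℤ) ^ 2 ^ m ≤ (|val g S u| * wt T v + 1) ^ T.card ∧
      (2 : ℤ) ^ 2 ^ m ≤ (wt S u * wt T v + 2) ^ ((6 * T.card) ^ S.card) ∧
      (2 : ℤ) ^ 2 ^ m ≤ (wt S u * wt T v + 2) ^ (5 ^ (S.card + T.card - 1))) ∧
    (∀ (k n : ℕ) (S T : Finset ℕ) (u v : ℕ → ℤ), n = 2 ^ 2 ^ k →
      (∀ a ∈ S, |u a| < n) → (∀ b ∈ T, |v b| < n) →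
      val n S u * val n T v = (n : ℤ) ^ n + 1 → |val n S u| ≠ 1 → |val n T v| ≠ 1 →
      n ≤ 3 * (6 * T.card) ^ S.card ∧ n ≤ 3 * 5 ^ (S.card + T.card - 1)) := by
  have hid : ∀ k : ℕ, (2 ^ 2 ^ k) ^ (2 ^ 2 ^ k) = 2 ^ 2 ^ (k + 2 ^ k) := by
    intro k
    rw [← pow_mul, ← pow_add]
  refine ⟨fun g N S T u v hg hN h hd he => general g N S T u v hg hN h hd he,
    ⟨hid, fun m g N S T u v hgN h hd he => fermat m g N S T u v hgN h hd he⟩,
    fun k n S T u v hn hu hv h hd he => ?_⟩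
  have hgN : n ^ n = 2 ^ 2 ^ (k + 2 ^ k) := by rw [hn, hid]
  have hgN' : (n : ℤ) ^ n = (2 : ℤ) ^ 2 ^ (k + 2 ^ k) := by exact_mod_cast hgN
  have hn2 : 2 ≤ n := by
    rw [hn]
    exact Nat.one_lt_two_pow (by positivity)
  obtain ⟨-, a2, a3⟩ := fermat (k + 2 ^ k) n n S T u v hgN (by rw [h, hgN']) hd he
  rw [← hgN'] at a2 a3
  have h0S : 0 ∈ S := Pool.Agent.K6.H50.SPF.zero_mem (N := n) hn2 (by omega) S u _ h
  have h0T : 0 ∈ T := Pool.Agent.K6.H50.SPF.zero_mem (N := n) hn2 (by omega) T v (val n S u)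
    (by rw [mul_comm]; exact h)
  have hs : 1 ≤ S.card := Finset.card_pos.2 ⟨0, h0S⟩
  have ht : 1 ≤ T.card := Finset.card_pos.2 ⟨0, h0T⟩
  have hU0 : 0 ≤ wt S u := Finset.sum_nonneg fun _ _ => abs_nonneg _
  have hV0 : 0 ≤ wt T v := Finset.sum_nonneg fun _ _ => abs_nonneg _
  exact ⟨digits_aux hn2 hU0 hV0 (wt_le S u hu) (wt_le T v hv) (card_mul_le _ _ hs) a2,
    digits_aux hn2 hU0 hV0 (wt_le S u hu) (wt_le T v hv) (card_mul_le' _ _ hs ht) a3⟩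

end Pool.Agent.Results.MP_a70bdc_nt.SparseFactors
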