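import Pool.Agent.K6.H31.RU.Lagr

/-!
# Powers, roots of unity and polynomial congruences of sparse numbers modulo `n ^ n + 1`

If `n ^ n + 1` is prime and `n > 1` then `n = 2 ^ (2 ^ κ)`. Modulo a prime `F = n ^ n + 1` the residue classes form a field: a
polynomial of degree `D` has at most `D` roots, two numbers with the same `k`-th powers differ by one of the `gcd (k, F - 1)`
roots of unity, and as `F - 1` is a power of `2` these are of `2`-power order; those of order dividing `2 n` are the powers of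
`n`. We show that for `n = 2 ^ (2 ^ κ)` the number `F = n ^ n + 1`, prime or not, has these properties with respect to the
sparse integers: if `x`, `y` have at most `s` nonzero digits in base `n` and `y` is prime to `F` then `x ^ k ≡ y ^ k` modulo `F`
if and only if `x ≡ n ^ i y` for some `i` with `2 n ∣ i k`; in particular the sparse `k`-th roots of unity modulo `F` are the
powers of `n`, and for odd `k` the `k`-th power map is injective on the sparse integers prime to `F`. A polynomial of degree at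
most `D` with sparse coefficients which are not all divisible by `F` has at most `D` incongruent sparse roots modulo `F`. There
are no sparse nontrivial square roots of `1` or `-1`, which would factor `F`.

Proof. Euclid's lemma for sparse numbers (`K6/H86/SD`, behind `MP_a70bdc_nt.SparseEuclid`) is applied to the factorizations of
`X ^ k - Y ^ k`. If `F` divides `∑ X ^ i Y ^ (q - 1 - i)`, `i < q`, for an odd prime `q`, then every prime factor of `F` is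
`1` modulo `q` and so is `F`, but `F - 1` is a power of `2`; and `X ^ M + Y ^ M ≡ X ^ M - (n ^ (n / M) Y) ^ M` for a power `M`
of `2`. The bound for the number of roots comes from the determinant of Vandermonde.
-/

set_option autoImplicit false

namespace Pool.Agent.Results.MP_a70bdc_nt.SparsePowers

open Pool.Agent.K6.H31.RU Pool.Agent.K6.H50.SPF Pool.Agent.K6.H86.SD

/-- `x` has at most `s` nonzero digits in base `g`, where digits of both signs and of absolute value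
less than `g` are admitted. -/
def Sparse (g s : ℕ) (x : ℤ) : Prop :=
  ∃ (S : Finset ℕ) (u : ℕ → ℤ), S.card ≤ s ∧ (∀ a ∈ S, |u a| < g) ∧ ∑ a ∈ S, u a * (g : ℤ) ^ a = x

/-- `x` is the sum of at most `s` terms `u g ^ a` whose coefficients `u` have absolute values of sum
at most `U`. -/
def Weighted (g s : ℕ) (U x : ℤ) : Prop :=
  ∃ (S : Finset ℕ) (u : ℕ → ℤ), S.card ≤ s ∧ ∑ a ∈ S, |u a| ≤ U ∧ ∑ a ∈ S, u a * (g : ℤ) ^ a = x

theorem sp_of_weighted {g s : ℕ} {U x : ℤ} (h : Weighted g s U x) : Sp g s U x := h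

theorem sp_of_sparse {g s : ℕ} {x : ℤ} (h : Sparse g s x) : Sp g s (s * g) x := by
  obtain ⟨S, u, a, b, c⟩ := h
  refine ⟨S, u, a, ?_, c⟩
  have hs : (S.card : ℤ) ≤ s := by exact_mod_cast a
  have hg : (0 : ℤ) ≤ g := by positivity
  calc wt S u = ∑ i ∈ S, |u i| := rfl
    _ ≤ ∑ i ∈ S, (g : ℤ) := Finset.sum_le_sum fun i hi => (b i hi).le
    _ = S.card * g := by rw [Finset.sum_const, nsmul_eq_mul]
    _ ≤ s * g := mul_le_mul_of_nonneg_right hs hg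

theorem pow_self (κ : ℕ) : (2 ^ 2 ^ κ) ^ (2 ^ 2 ^ κ) = 2 ^ 2 ^ (κ + 2 ^ κ) := by
  rw [← pow_mul]
  congr 1
  exact (pow_add 2 κ (2 ^ κ)).symm

theorem two_le (κ : ℕ) : 2 ≤ 2 ^ 2 ^ κ :=
  calc 2 = 2 ^ 1 := rfl
    _ ≤ 2 ^ 2 ^ κ := Nat.pow_le_pow_right (by norm_num) Nat.one_le_two_pow

theorem powers_n (κ s k : ℕ) (hk : 1 ≤ k) (hn : 4 * (k + 1) * 5 ^ (k * s ^ k) < 2 ^ 2 ^ κ)
    (x y : ℤ) (hx : Sparse (2 ^ 2 ^ κ) s x) (hy : Sparse (2 ^ 2 ^ κ) s y)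
    (hcop : IsCoprime y (((2 ^ 2 ^ κ) ^ (2 ^ 2 ^ κ) + 1 : ℕ) : ℤ)) :
    (((2 ^ 2 ^ κ) ^ (2 ^ 2 ^ κ) + 1 : ℕ) : ℤ) ∣ x ^ k - y ^ k ↔
      ∃ i < 2 * 2 ^ 2 ^ κ, 2 * 2 ^ 2 ^ κ ∣ i * k ∧
        (((2 ^ 2 ^ κ) ^ (2 ^ 2 ^ κ) + 1 : ℕ) : ℤ) ∣ x - ((2 ^ 2 ^ κ : ℕ) : ℤ) ^ i * y := by
  have hcast : ((((2 ^ 2 ^ κ) ^ (2 ^ 2 ^ κ) + 1 : ℕ)) : ℤ) = (2 : ℤ) ^ 2 ^ (κ + 2 ^ κ) + 1 := by
    rw [pow_self]
    push_cast
    rfl
  rw [hcast] at hcop ⊢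
  have hself := pow_self κ
  have hn2 := two_le κ
  have hx' := sp_of_sparse hx
  have hy' := sp_of_sparse hy
  generalize 2 ^ 2 ^ κ = n at hn hself hn2 hx' hy' ⊢
  have hc : (2 : ℤ) ^ 2 ^ (κ + 2 ^ κ) = (n : ℤ) ^ n := by exact_mod_cast hself.symm
  constructor
  · intro h
    rcases roots hself hk hx' hy' hcop h with ⟨i, h1, h2⟩ | h3
    · exact reduce hself h1 h2
    · exfalso
      rw [hc] at h3
      have h5 : (n : ℕ) ^ n ≤ (n * (k * (s * n) ^ k)) ^ (2 * 5 ^ (k * s ^ k)) := by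
        exact_mod_cast h3
      have hpos : 1 ≤ 5 ^ (k * s ^ k) := Nat.one_le_pow _ _ (by norm_num)
      have hkn : k ≤ n := by nlinarith
      have hsn : s ≤ n := by
        rcases Nat.eq_zero_or_pos s with h0 | h0
        · omega
        · have a1 : s ≤ s ^ k := Nat.le_self_pow (by omega) s
          have a2 : s ^ k ≤ k * s ^ k := Nat.le_mul_of_pos_left _ (by omega)
          have a3 : k * s ^ k < 5 ^ (k * s ^ k) := Nat.lt_pow_self (by norm_num)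
          nlinarith
      have h6 : n * (k * (s * n) ^ k) ≤ n ^ (2 * k + 2) := by
        calc n * (k * (s * n) ^ k) ≤ n * (n * (n * n) ^ k) :=
              Nat.mul_le_mul_left _ (Nat.mul_le_mul hkn
                (Nat.pow_le_pow_left (Nat.mul_le_mul_right _ hsn) _))
          _ = n ^ (2 * k + 2) := by
              rw [← pow_two, ← pow_mul, pow_add, pow_two n]
              ring
      have h7 : n ^ n ≤ n ^ ((2 * k + 2) * (2 * 5 ^ (k * s ^ k))) := by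
        rw [pow_mul]
        exact h5.trans (Nat.pow_le_pow_left h6 _)
      have h8 := (Nat.pow_le_pow_iff_right (by omega : 1 < n)).1 h7
      have h9 : (2 * k + 2) * (2 * 5 ^ (k * s ^ k)) = 4 * (k + 1) * 5 ^ (k * s ^ k) := by ring
      omega
  · rintro ⟨i, -, ⟨t, ht⟩, hd⟩
    have h1 : (2 : ℤ) ^ 2 ^ (κ + 2 ^ κ) + 1 ∣ x ^ k - ((n : ℤ) ^ i * y) ^ k :=
      hd.trans (sub_dvd_pow_sub_pow _ _ k)
    have h2 : (2 : ℤ) ^ 2 ^ (κ + 2 ^ κ) + 1 ∣ (n : ℤ) ^ (i * k) - 1 := by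
      rw [ht, pow_mul, hc]
      have : (n : ℤ) ^ n + 1 ∣ (n : ℤ) ^ (2 * n) - 1 := ⟨(n : ℤ) ^ n - 1, by ring⟩
      exact this.trans (sub_one_dvd_pow_sub_one _ _)
    have e : x ^ k - y ^ k = (x ^ k - ((n : ℤ) ^ i * y) ^ k) +
        ((n : ℤ) ^ (i * k) - 1) * y ^ k := by
      rw [mul_pow, ← pow_mul]
      ring
    rw [e]
    exact dvd_add h1 (Dvd.dvd.mul_right h2 _)

theorem eval_sum {D : ℕ} (P : Polynomial ℤ) (hP : P.natDegree ≤ D) (x : ℤ) :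
    P.eval x = ∑ j : Fin (D + 1), P.coeff j * x ^ (j : ℕ) := by
  rw [Polynomial.eval_eq_sum_range' (Nat.lt_succ_of_le hP), Finset.sum_range]

theorem lagrange_n (κ s D : ℕ)
    (hn : 4 * (D + 1) ^ 2 * (2 * (D + 1) ^ 2 + 1) ^ (2 * s) < 2 ^ 2 ^ κ) (P : Polynomial ℤ)
    (hP : P.natDegree ≤ D) (hc : ∀ j, Sparse (2 ^ 2 ^ κ) s (P.coeff j))
    (x : Fin (D + 1) → ℤ) (hx : ∀ i, Sparse (2 ^ 2 ^ κ) s (x i))
    (hne : ∀ i j, i ≠ j → ¬ (((2 ^ 2 ^ κ) ^ (2 ^ 2 ^ κ) + 1 : ℕ) : ℤ) ∣ x i - x j)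
    (h : ∀ i, (((2 ^ 2 ^ κ) ^ (2 ^ 2 ^ κ) + 1 : ℕ) : ℤ) ∣ P.eval (x i)) (j : ℕ) :
    (((2 ^ 2 ^ κ) ^ (2 ^ 2 ^ κ) + 1 : ℕ) : ℤ) ∣ P.coeff j := by
  have hcast : ((((2 ^ 2 ^ κ) ^ (2 ^ 2 ^ κ) + 1 : ℕ)) : ℤ) = (2 : ℤ) ^ 2 ^ (κ + 2 ^ κ) + 1 := by
    rw [pow_self]
    push_cast
    rfl
  rw [hcast] at hne h ⊢
  have hself := pow_self κ
  have hn2 := two_le κ
  have hx' := fun i => sp_of_sparse (hx i)
  have hc' := fun i => sp_of_sparse (hc i)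
  clear hx hc hcast
  generalize 2 ^ 2 ^ κ = n at hn hself hn2 hx' hc'
  have hcc : (2 : ℤ) ^ 2 ^ (κ + 2 ^ κ) = (n : ℤ) ^ n := by exact_mod_cast hself.symm
  rcases lagrange hself (fun j : Fin (D + 1) => P.coeff j) (fun j => hc' j) x hx' hne
    (fun i => by rw [← eval_sum P hP]; exact h i) with h1 | h1
  · rcases Nat.lt_or_ge j (D + 1) with hj | hj
    · exact h1 ⟨j, hj⟩
    · rw [Polynomial.coeff_eq_zero_of_natDegree_lt (by omega)]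
      exact dvd_zero _
  · exfalso
    rw [hcc] at h1
    have h5 : (n : ℕ) ^ n ≤
        (n * (2 * (s * n))) ^ ((D + 1) ^ 2 * (2 * (D + 1) ^ 2 + 1) ^ (2 * s)) := by
      exact_mod_cast h1
    have hsn : s ≤ n := by
      have a1 : s < 2 ^ s := Nat.lt_two_pow_self
      have a2 : 2 ^ s ≤ (2 * (D + 1) ^ 2 + 1) ^ s := Nat.pow_le_pow_left (by nlinarith) s
      have a3 : (2 * (D + 1) ^ 2 + 1) ^ s ≤ (2 * (D + 1) ^ 2 + 1) ^ (2 * s) :=
        Nat.pow_le_pow_right (by omega) (by omega)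
      have a4 : (2 * (D + 1) ^ 2 + 1) ^ (2 * s) ≤
          4 * (D + 1) ^ 2 * (2 * (D + 1) ^ 2 + 1) ^ (2 * s) :=
        Nat.le_mul_of_pos_left _ (by positivity)
      omega
    have h6 : n * (2 * (s * n)) ≤ n ^ 4 := by
      calc n * (2 * (s * n)) ≤ n * (n * (n * n)) :=
            Nat.mul_le_mul_left _ (Nat.mul_le_mul hn2 (Nat.mul_le_mul_right _ hsn))
        _ = n ^ 4 := by ring
    have h7 : n ^ n ≤ n ^ (4 * ((D + 1) ^ 2 * (2 * (D + 1) ^ 2 + 1) ^ (2 * s))) := by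
      rw [pow_mul]
      exact h5.trans (Nat.pow_le_pow_left h6 _)
    have h8 := (Nat.pow_le_pow_iff_right (by omega : 1 < n)).1 h7
    have h9 : 4 * ((D + 1) ^ 2 * (2 * (D + 1) ^ 2 + 1) ^ (2 * s)) =
        4 * (D + 1) ^ 2 * (2 * (D + 1) ^ 2 + 1) ^ (2 * s) := by ring
    omega

theorem result :
    -- `n = 2 ^ (2 ^ κ)`: sparse numbers with congruent `k`-th powers modulo `n ^ n + 1`
    (∀ (κ s k : ℕ), 1 ≤ k → 4 * (k + 1) * 5 ^ (k * s ^ k) < 2 ^ 2 ^ κ → ∀ x y : ℤ,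
      Sparse (2 ^ 2 ^ κ) s x → Sparse (2 ^ 2 ^ κ) s y →
      IsCoprime y (((2 ^ 2 ^ κ) ^ (2 ^ 2 ^ κ) + 1 : ℕ) : ℤ) →
      ((((2 ^ 2 ^ κ) ^ (2 ^ 2 ^ κ) + 1 : ℕ) : ℤ) ∣ x ^ k - y ^ k ↔
        ∃ i < 2 * 2 ^ 2 ^ κ, 2 * 2 ^ 2 ^ κ ∣ i * k ∧
          (((2 ^ 2 ^ κ) ^ (2 ^ 2 ^ κ) + 1 : ℕ) : ℤ) ∣ x - ((2 ^ 2 ^ κ : ℕ) : ℤ) ^ i * y)) ∧
    -- polynomials with sparse coefficients and sparse roots modulo `n ^ n + 1`
    (∀ (κ s D : ℕ), 4 * (D + 1) ^ 2 * (2 * (D + 1) ^ 2 + 1) ^ (2 * s) < 2 ^ 2 ^ κ →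
      ∀ P : Polynomial ℤ, P.natDegree ≤ D → (∀ j, Sparse (2 ^ 2 ^ κ) s (P.coeff j)) →
      ∀ x : Fin (D + 1) → ℤ, (∀ i, Sparse (2 ^ 2 ^ κ) s (x i)) →
      (∀ i j, i ≠ j → ¬ (((2 ^ 2 ^ κ) ^ (2 ^ 2 ^ κ) + 1 : ℕ) : ℤ) ∣ x i - x j) →
      (∀ i, (((2 ^ 2 ^ κ) ^ (2 ^ 2 ^ κ) + 1 : ℕ) : ℤ) ∣ P.eval (x i)) →
      ∀ j, (((2 ^ 2 ^ κ) ^ (2 ^ 2 ^ κ) + 1 : ℕ) : ℤ) ∣ P.coeff j) ∧
    -- the same for all Fermat numbers and all bases `g` with `g ^ N = 2 ^ (2 ^ m)`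
    (∀ (m g N s k : ℕ) (U : ℤ), g ^ N = 2 ^ 2 ^ m → 1 ≤ k → ∀ x y : ℤ,
      Weighted g s U x → Weighted g s U y → IsCoprime y ((2 : ℤ) ^ 2 ^ m + 1) →
      (2 : ℤ) ^ 2 ^ m + 1 ∣ x ^ k - y ^ k →
      (∃ i < 2 * N, 2 * N ∣ i * k ∧ (2 : ℤ) ^ 2 ^ m + 1 ∣ x - (g : ℤ) ^ i * y) ∨
        (2 : ℤ) ^ 2 ^ m ≤ (g * (k * U ^ k)) ^ (2 * 5 ^ (k * s ^ k))) ∧
    (∀ (m g N s D : ℕ) (U : ℤ), g ^ N = 2 ^ 2 ^ m → ∀ P : Polynomial ℤ, P.natDegree ≤ D →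
      (∀ j, Weighted g s U (P.coeff j)) → ∀ x : Fin (D + 1) → ℤ, (∀ i, Weighted g s U (x i)) →
      (∀ i j, i ≠ j → ¬ (2 : ℤ) ^ 2 ^ m + 1 ∣ x i - x j) →
      (∀ i, (2 : ℤ) ^ 2 ^ m + 1 ∣ P.eval (x i)) →
      (∀ j, (2 : ℤ) ^ 2 ^ m + 1 ∣ P.coeff j) ∨
        (2 : ℤ) ^ 2 ^ m ≤
          (g * (2 * U)) ^ ((D + 1) ^ 2 * (2 * (D + 1) ^ 2 + 1) ^ (2 * s))) := by
  refine ⟨powers_n, lagrange_n, ?_, ?_⟩
  · intro m g N s k U hgN hk x y hx hy hcop h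
    rcases roots hgN hk (sp_of_weighted hx) (sp_of_weighted hy) hcop h with ⟨i, h1, h2⟩ | h3
    · exact Or.inl (reduce hgN h1 h2)
    · exact Or.inr h3
  · intro m g N s D U hgN P hP hc x hx hne h
    rcases lagrange hgN (fun j : Fin (D + 1) => P.coeff j) (fun j => sp_of_weighted (hc j)) x
      (fun i => sp_of_weighted (hx i)) hne
      (fun i => by rw [← eval_sum P hP]; exact h i) with h1 | h1
    · left
      intro j
      rcases Nat.lt_or_ge j (D + 1) with hj | hj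
      · exact h1 ⟨j, hj⟩
      · rw [Polynomial.coeff_eq_zero_of_natDegree_lt (by omega)]
        exact dvd_zero _
    · exact Or.inr h1

end Pool.Agent.Results.MP_a70bdc_nt.SparsePowers
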